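import Pool.Agent.Work.MP_e214ac_gt.G.Rel

/-!
# Module G/Lin: diagrams are invariant under linear changes of the coordinates

`∂_a = ∑_b M_ba ∂'_b`, `P^{ab} = ∑ N_ac N_be P'^{ce}`, `M N = 1`.  Then
`D(∂, P)^{ij} = ∑ N_ik N_jl D(∂', P')^{kl}`.

Proof (`eval_lin`).  Fix a labelling `I` of the edges.  Expand every factor: `P^{I(v,0) I(v,1)}` is
the sum over `c : Fin n × Fin 2 → J` (only the values at `(v,0)`, `(v,1)` matter) of
`N_{I(v,0) c(v,0)} N_{I(v,1) c(v,1)} P'^{c(v,0) c(v,1)}`, and the iterated derivative along the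
incoming edges is the sum over labellings `b` of the incoming edges of
`∏_e M_{b(e) I(e)}` times the iterated primed derivative with labels `b`.  All `∂'_b` are linear, so
the product over `v` becomes
`∑_c ∑_b ∏_{e} N_{I(e) c(e)} ∏_{e internal} M_{b(e) I(e)} ∏_v ∂'_{b(in v)} P'^{c(v,0) c(v,1)}`
(`Finset.prod_univ_sum`; `b` runs over the functions on the internal edges, e.g. over all functions
`Fin n × Fin 2 → J` that take a fixed value, or the value `c(e)`, on the two free edges).
Now sum over `I`: for an internal edge `∑_{I(e)} M_{b(e) I(e)} N_{I(e) c(e)} = δ_{b(e) c(e)}`, for the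
free edge into the sink `0` (`1`) the label `I(e) = i` (`j`) is fixed and leaves the factor
`N_{i c(e)}` (`N_{j c(e)}`).  What remains is the sum over `c` of
`N_{i c(e0)} N_{j c(e1)} ∏_v ∂'_{c(in v)} P'^{c(v,0) c(v,1)}`; sort it by `k = c(e0)`, `l = c(e1)`.
(An alternative that avoids the double bookkeeping: change the coordinates on one edge after the
other, i.e. induct on a set of edges on which the primed indices are used.)
-/

set_option autoImplicit false

namespace E214

variable {n : ℕ} {J : Type} [Fintype J] [DecidableEq J] {R : Type} [CommRing R] [Algebra ℝ R]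

/-- the derivative along the vector `x` -/
private noncomputable def lin_dx (d' : J → R →ₗ[ℝ] R) (x : J → ℝ) : R →ₗ[ℝ] R := ∑ b, x b • d' b

private theorem lin_dx_apply (d' : J → R →ₗ[ℝ] R) (x : J → ℝ) (g : R) :
    lin_dx d' x g = ∑ b, x b • d' b g := by
  unfold lin_dx
  rw [LinearMap.sum_apply]
  rfl

private theorem lin_dx_comb (d' : J → R →ₗ[ℝ] R) (x y : J → ℝ) (α β : ℝ) :
    lin_dx d' (α • x + β • y) = α • lin_dx d' x + β • lin_dx d' y := by
  unfold lin_dx
  rw [Finset.smul_sum, Finset.smul_sum, ← Finset.sum_add_distrib]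
  refine Finset.sum_congr rfl fun b _ => ?_
  rw [smul_smul, smul_smul, ← add_smul]
  rfl

private theorem lin_dx_single (d' : J → R →ₗ[ℝ] R) (a : J) (g : R) :
    lin_dx d' (Pi.single a 1) g = d' a g := by
  rw [lin_dx_apply, Finset.sum_eq_single a]
  · rw [Pi.single_eq_same, one_smul]
  · intro b _ hb
    rw [Pi.single_eq_of_ne hb, zero_smul]
  · intro hh; exact absurd (Finset.mem_univ a) hh

/-- the component of `P'` at two covectors -/
private noncomputable def lin_P (P' : J → J → R) (y z : J → ℝ) : R :=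
  ∑ c, ∑ e, (y c * z e) • P' c e

private theorem lin_P_left (P' : J → J → R) (x y z : J → ℝ) (α β : ℝ) :
    lin_P P' (α • x + β • y) z = α • lin_P P' x z + β • lin_P P' y z := by
  unfold lin_P
  rw [Finset.smul_sum, Finset.smul_sum, ← Finset.sum_add_distrib]
  refine Finset.sum_congr rfl fun b _ => ?_
  rw [Finset.smul_sum, Finset.smul_sum, ← Finset.sum_add_distrib]
  refine Finset.sum_congr rfl fun e _ => ?_
  rw [smul_smul, smul_smul, ← add_smul]
  congr 1
  simp only [Pi.add_apply, Pi.smul_apply, smul_eq_mul]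
  ring

private theorem lin_P_right (P' : J → J → R) (x y z : J → ℝ) (α β : ℝ) :
    lin_P P' z (α • x + β • y) = α • lin_P P' z x + β • lin_P P' z y := by
  unfold lin_P
  rw [Finset.smul_sum, Finset.smul_sum, ← Finset.sum_add_distrib]
  refine Finset.sum_congr rfl fun b _ => ?_
  rw [Finset.smul_sum, Finset.smul_sum, ← Finset.sum_add_distrib]
  refine Finset.sum_congr rfl fun e _ => ?_
  rw [smul_smul, smul_smul, ← add_smul]
  congr 1
  simp only [Pi.add_apply, Pi.smul_apply, smul_eq_mul]
  ring

private theorem lin_P_single (P' : J → J → R) (a b : J) :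
    lin_P P' (Pi.single a 1) (Pi.single b 1) = P' a b := by
  unfold lin_P
  rw [Finset.sum_eq_single a]
  · rw [Finset.sum_eq_single b]
    · rw [Pi.single_eq_same, Pi.single_eq_same, mul_one, one_smul]
    · intro c _ hc
      rw [Pi.single_eq_of_ne hc, mul_zero, zero_smul]
    · intro hh; exact absurd (Finset.mem_univ _) hh
  · intro c _ hc
    refine Finset.sum_eq_zero fun e _ => ?_
    rw [Pi.single_eq_of_ne hc, zero_mul, zero_smul]
  · intro hh; exact absurd (Finset.mem_univ _) hh

private theorem lin_foldr_congr {α : Type} (l : List α) (f g : α → R → R) (b : R)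
    (h : ∀ e ∈ l, ∀ x, f e x = g e x) : l.foldr f b = l.foldr g b := by
  induction l with
  | nil => rfl
  | cons e l ih =>
    rw [List.foldr_cons, List.foldr_cons, ih fun e he => h e (List.mem_cons_of_mem _ he),
      h e List.mem_cons_self]

private theorem lin_foldr_comb {α : Type} (l : List α) (ops : α → R →ₗ[ℝ] R) (x y : R)
    (r s : ℝ) : l.foldr (fun e g => ops e g) (r • x + s • y)
      = r • l.foldr (fun e g => ops e g) x + s • l.foldr (fun e g => ops e g) y := by
  induction l with
  | nil => rfl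
  | cons e l ih => rw [List.foldr_cons, List.foldr_cons, List.foldr_cons, ih, map_add, map_smul,
      map_smul]

private theorem lin_foldr_ops {α : Type} (l : List α) (hl : l.Nodup) (e0 : α) (he0 : e0 ∈ l)
    (o0 o1 o2 : α → R →ₗ[ℝ] R) (r s : ℝ) (h1 : ∀ e, e ≠ e0 → o0 e = o1 e)
    (h2 : ∀ e, e ≠ e0 → o0 e = o2 e) (h0 : o0 e0 = r • o1 e0 + s • o2 e0) (x : R) :
    l.foldr (fun e g => o0 e g) x
      = r • l.foldr (fun e g => o1 e g) x + s • l.foldr (fun e g => o2 e g) x := by
  induction l with
  | nil => simp at he0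
  | cons e l ih =>
    rw [List.nodup_cons] at hl
    rw [List.foldr_cons, List.foldr_cons, List.foldr_cons]
    by_cases h : e = e0
    · subst h
      have e1 : l.foldr (fun e g => o1 e g) x = l.foldr (fun e g => o0 e g) x :=
        lin_foldr_congr l _ _ x fun e' he' g => by
          rw [h1 e' (fun hh => hl.1 (hh ▸ he'))]
      have e2 : l.foldr (fun e g => o2 e g) x = l.foldr (fun e g => o0 e g) x :=
        lin_foldr_congr l _ _ x fun e' he' g => by
          rw [h2 e' (fun hh => hl.1 (hh ▸ he'))]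
      rw [h0, e1, e2]
      rfl
    · have hm : e0 ∈ l := by
        rcases List.mem_cons.1 he0 with hh | hh
        · exact absurd hh.symm h
        · exact hh
      rw [ih hl.2 hm, map_add, map_smul, map_smul]
      rw [h1 e h]
      congr 1
      rw [← h2 e h, h1 e h]

/-- the factor at the vertex `v` -/
private noncomputable def lin_F (D : Diagram n) (d' : J → R →ₗ[ℝ] R) (P' : J → J → R)
    (m : (Fin n × Fin 2) ⊕ (Fin n × Fin 2) → J → ℝ) (v : Fin n) : R :=
  ((edges n).filter fun e => D.tgt e = Sum.inl v).foldr (fun e g => lin_dx d' (m (Sum.inl e)) g)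
    (lin_P P' (m (Sum.inr (v, 0))) (m (Sum.inr (v, 1))))

/-- the factor at the edge `e` (not one only for the free edges) -/
private noncomputable def lin_h (D : Diagram n) (ν : Fin 2 → J → ℝ)
    (m : (Fin n × Fin 2) ⊕ (Fin n × Fin 2) → J → ℝ) (e : Fin n × Fin 2) : ℝ :=
  match D.tgt e with
  | Sum.inl _ => 1
  | Sum.inr c => ∑ b, ν c b * m (Sum.inl e) b

private def lin_nu (N : Matrix J J ℝ) (i j : J) (c : Fin 2) (b : J) : ℝ :=
  N (if c = 0 then i else j) b

/-- all factors -/
private noncomputable def lin_H (D : Diagram n) (d' : J → R →ₗ[ℝ] R) (P' : J → J → R)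
    (ν : Fin 2 → J → ℝ) (m : (Fin n × Fin 2) ⊕ (Fin n × Fin 2) → J → ℝ) :
    Fin n ⊕ (Fin n × Fin 2) → R
  | Sum.inl v => lin_F D d' P' m v
  | Sum.inr e => algebraMap ℝ R (lin_h D ν m e)

/-- the factor in which an argument occurs -/
private def lin_k (D : Diagram n) : (Fin n × Fin 2) ⊕ (Fin n × Fin 2) → Fin n ⊕ (Fin n × Fin 2)
  | Sum.inl e => match D.tgt e with
    | Sum.inl v => Sum.inl v
    | Sum.inr _ => Sum.inr e
  | Sum.inr e => Sum.inl e.1

private theorem lin_k_inl (D : Diagram n) (e : Fin n × Fin 2) (v : Fin n)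
    (h : D.tgt e = Sum.inl v) : lin_k D (Sum.inl e) = Sum.inl v := by
  simp only [lin_k, h]

private theorem lin_k_inr (D : Diagram n) (e : Fin n × Fin 2) (c : Fin 2)
    (h : D.tgt e = Sum.inr c) : lin_k D (Sum.inl e) = Sum.inr e := by
  simp only [lin_k, h]

private theorem lin_H_indep (D : Diagram n) (d' : J → R →ₗ[ℝ] R) (P' : J → J → R)
    (ν : Fin 2 → J → ℝ) (m m' : (Fin n × Fin 2) ⊕ (Fin n × Fin 2) → J → ℝ)
    (t : (Fin n × Fin 2) ⊕ (Fin n × Fin 2)) (hm : ∀ t', t' ≠ t → m' t' = m t')
    (k : Fin n ⊕ (Fin n × Fin 2)) (hk : k ≠ lin_k D t) :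
    lin_H D d' P' ν m' k = lin_H D d' P' ν m k := by
  rcases k with v | e
  · change lin_F D d' P' m' v = lin_F D d' P' m v
    unfold lin_F
    have h0 : ∀ a : Fin 2, m' (Sum.inr (v, a)) = m (Sum.inr (v, a)) := by
      intro a
      refine hm _ ?_
      rintro rfl
      exact hk rfl
    rw [h0 0, h0 1]
    refine lin_foldr_congr _ _ _ _ fun e he g => ?_
    rw [List.mem_filter] at he
    have hte : D.tgt e = Sum.inl v := by simpa using he.2
    rw [hm (Sum.inl e)]
    rintro rfl
    exact hk (lin_k_inl D e v hte).symm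
  · change algebraMap ℝ R (lin_h D ν m' e) = algebraMap ℝ R (lin_h D ν m e)
    congr 1
    unfold lin_h
    rcases hte : D.tgt e with v | c
    · rfl
    · simp only
      rw [hm (Sum.inl e)]
      rintro rfl
      exact hk (lin_k_inr D e c hte).symm

private theorem lin_H_comb (D : Diagram n) (d' : J → R →ₗ[ℝ] R) (P' : J → J → R)
    (ν : Fin 2 → J → ℝ) (m0 m1 m2 : (Fin n × Fin 2) ⊕ (Fin n × Fin 2) → J → ℝ)
    (t : (Fin n × Fin 2) ⊕ (Fin n × Fin 2)) (r s : ℝ) (h1 : ∀ t', t' ≠ t → m0 t' = m1 t')
    (h2 : ∀ t', t' ≠ t → m0 t' = m2 t') (h0 : m0 t = r • m1 t + s • m2 t) :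
    lin_H D d' P' ν m0 (lin_k D t)
      = r • lin_H D d' P' ν m1 (lin_k D t) + s • lin_H D d' P' ν m2 (lin_k D t) := by
  have hedge : ∀ e : Fin n × Fin 2, e ∈ edges n := by
    intro e
    unfold edges
    exact List.mem_product.2 ⟨List.mem_finRange _, List.mem_finRange _⟩
  rcases t with e | ⟨v, a⟩
  · rcases hte : D.tgt e with v | c
    · rw [lin_k_inl D e v hte]
      change lin_F D d' P' m0 v = r • lin_F D d' P' m1 v + s • lin_F D d' P' m2 v
      unfold lin_F
      have hb1 : ∀ a : Fin 2, m1 (Sum.inr (v, a)) = m0 (Sum.inr (v, a)) :=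
        fun a => (h1 _ (by simp)).symm
      have hb2 : ∀ a : Fin 2, m2 (Sum.inr (v, a)) = m0 (Sum.inr (v, a)) :=
        fun a => (h2 _ (by simp)).symm
      rw [hb1 0, hb1 1, hb2 0, hb2 1]
      refine lin_foldr_ops _ (((List.nodup_finRange n).product (List.nodup_finRange 2)).filter _) e
        ?_ (fun e => lin_dx d' (m0 (Sum.inl e))) (fun e => lin_dx d' (m1 (Sum.inl e)))
        (fun e => lin_dx d' (m2 (Sum.inl e))) r s ?_ ?_ ?_ _
      · rw [List.mem_filter]
        exact ⟨hedge e, by simpa using hte⟩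
      · intro e' he'
        beta_reduce
        rw [h1 _ fun h => he' (Sum.inl.inj h)]
      · intro e' he'
        beta_reduce
        rw [h2 _ fun h => he' (Sum.inl.inj h)]
      · beta_reduce
        rw [h0, lin_dx_comb]
    · rw [lin_k_inr D e c hte]
      change algebraMap ℝ R (lin_h D ν m0 e) = r • algebraMap ℝ R (lin_h D ν m1 e)
        + s • algebraMap ℝ R (lin_h D ν m2 e)
      rw [Algebra.smul_def, Algebra.smul_def, ← map_mul, ← map_mul, ← map_add]
      congr 1
      unfold lin_h
      rw [hte]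
      simp only
      rw [h0, Finset.mul_sum, Finset.mul_sum, ← Finset.sum_add_distrib]
      refine Finset.sum_congr rfl fun b _ => ?_
      simp only [Pi.add_apply, Pi.smul_apply, smul_eq_mul]
      ring
  · change lin_F D d' P' m0 v = r • lin_F D d' P' m1 v + s • lin_F D d' P' m2 v
    unfold lin_F
    have hd1 : ∀ e, m1 (Sum.inl e) = m0 (Sum.inl e) := fun e => (h1 _ (by simp)).symm
    have hd2 : ∀ e, m2 (Sum.inl e) = m0 (Sum.inl e) := fun e => (h2 _ (by simp)).symm
    simp only [hd1, hd2]
    rw [← lin_foldr_comb _ (fun e => lin_dx d' (m0 (Sum.inl e)))]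
    congr 1
    fin_cases a
    · have e1 : m1 (Sum.inr (v, 1)) = m0 (Sum.inr (v, 1)) := (h1 _ (by simp)).symm
      have e2 : m2 (Sum.inr (v, 1)) = m0 (Sum.inr (v, 1)) := (h2 _ (by simp)).symm
      rw [e1, e2, ← lin_P_left]
      have h0' : m0 (Sum.inr (v, 0)) = r • m1 (Sum.inr (v, 0)) + s • m2 (Sum.inr (v, 0)) := h0
      rw [← h0']
    · have e1 : m1 (Sum.inr (v, 0)) = m0 (Sum.inr (v, 0)) := (h1 _ (by simp)).symm
      have e2 : m2 (Sum.inr (v, 0)) = m0 (Sum.inr (v, 0)) := (h2 _ (by simp)).symm
      rw [e1, e2, ← lin_P_right]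
      have h0' : m0 (Sum.inr (v, 1)) = r • m1 (Sum.inr (v, 1)) + s • m2 (Sum.inr (v, 1)) := h0
      rw [← h0']

private theorem lin_prod_comb {K : Type} [Fintype K] [DecidableEq K] (k0 : K) (F0 F1 F2 : K → R)
    (r s : ℝ) (h1 : ∀ k, k ≠ k0 → F0 k = F1 k) (h2 : ∀ k, k ≠ k0 → F0 k = F2 k)
    (h0 : F0 k0 = r • F1 k0 + s • F2 k0) :
    ∏ k, F0 k = r • ∏ k, F1 k + s • ∏ k, F2 k := by
  rw [← Finset.mul_prod_erase Finset.univ F0 (Finset.mem_univ k0),
    ← Finset.mul_prod_erase Finset.univ F1 (Finset.mem_univ k0),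
    ← Finset.mul_prod_erase Finset.univ F2 (Finset.mem_univ k0), h0, add_mul, smul_mul_assoc,
    smul_mul_assoc,
    Finset.prod_congr rfl fun k hk => (h1 k (Finset.ne_of_mem_erase hk)).symm]
  congr 3
  refine Finset.prod_congr rfl fun k hk => ?_
  rw [h2 k (Finset.ne_of_mem_erase hk)]

private theorem lin_W_comb (D : Diagram n) (d' : J → R →ₗ[ℝ] R) (P' : J → J → R)
    (ν : Fin 2 → J → ℝ) (m0 m1 m2 : (Fin n × Fin 2) ⊕ (Fin n × Fin 2) → J → ℝ)
    (t : (Fin n × Fin 2) ⊕ (Fin n × Fin 2)) (r s : ℝ) (h1 : ∀ t', t' ≠ t → m0 t' = m1 t')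
    (h2 : ∀ t', t' ≠ t → m0 t' = m2 t') (h0 : m0 t = r • m1 t + s • m2 t) :
    ∏ k, lin_H D d' P' ν m0 k
      = r • ∏ k, lin_H D d' P' ν m1 k + s • ∏ k, lin_H D d' P' ν m2 k := by
  classical
  exact lin_prod_comb (lin_k D t) _ _ _ r s
    (fun k hk => lin_H_indep D d' P' ν m1 m0 t h1 k hk)
    (fun k hk => lin_H_indep D d' P' ν m2 m0 t h2 k hk)
    (lin_H_comb D d' P' ν m0 m1 m2 t r s h1 h2 h0)

/-- the product of all factors as a multilinear map -/
private noncomputable def lin_multi (D : Diagram n) (d' : J → R →ₗ[ℝ] R) (P' : J → J → R)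
    (ν : Fin 2 → J → ℝ) :
    MultilinearMap ℝ (fun _ : (Fin n × Fin 2) ⊕ (Fin n × Fin 2) => J → ℝ) R where
  toFun m := ∏ k, lin_H D d' P' ν m k
  map_update_add' m t x y := by
    have h := lin_W_comb D d' P' ν (Function.update m t (x + y)) (Function.update m t x)
      (Function.update m t y) t 1 1
      (fun t' ht => by rw [Function.update_of_ne ht, Function.update_of_ne ht])
      (fun t' ht => by rw [Function.update_of_ne ht, Function.update_of_ne ht])
      (by rw [Function.update_self, Function.update_self, Function.update_self, one_smul, one_smul])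
    rw [one_smul, one_smul] at h
    exact h
  map_update_smul' m t c x := by
    have h := lin_W_comb D d' P' ν (Function.update m t (c • x)) (Function.update m t x)
      (Function.update m t x) t c 0
      (fun t' ht => by rw [Function.update_of_ne ht, Function.update_of_ne ht])
      (fun t' ht => by rw [Function.update_of_ne ht, Function.update_of_ne ht])
      (by rw [Function.update_self, Function.update_self, zero_smul, add_zero])
    rw [zero_smul, add_zero] at h
    exact h

private theorem lin_multi_apply (D : Diagram n) (d' : J → R →ₗ[ℝ] R) (P' : J → J → R)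
    (ν : Fin 2 → J → ℝ) (m : (Fin n × Fin 2) ⊕ (Fin n × Fin 2) → J → ℝ) :
    lin_multi D d' P' ν m = (∏ e, lin_h D ν m e) • ∏ v, lin_F D d' P' m v := by
  change ∏ k, lin_H D d' P' ν m k = _
  rw [Fintype.prod_sum_type]
  change (∏ v, lin_F D d' P' m v) * ∏ e, algebraMap ℝ R (lin_h D ν m e) = _
  rw [← map_prod, Algebra.smul_def, mul_comm]

/-- contraction of dual bases -/
private theorem lin_contract {E : Type} [Fintype E] [DecidableEq E]
    (W : MultilinearMap ℝ (fun _ : E ⊕ E => J → ℝ) R) (M N : Matrix J J ℝ) (h : M * N = 1) :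
    ∑ L : E → J, W (Sum.elim (fun e b => M b (L e)) (fun e c => N (L e) c))
      = ∑ c : E → J, W (Sum.elim (fun e => Pi.single (c e) 1) (fun e => Pi.single (c e) 1)) := by
  have h1 : ∀ L : E → J, W (Sum.elim (fun e b => M b (L e)) (fun e c => N (L e) c))
      = ∑ r : E ⊕ E → J, (∏ e, M (r (Sum.inl e)) (L e) * N (L e) (r (Sum.inr e))) •
        W (fun t => Pi.single (r t) 1) := by
    intro L
    have e1 : (Sum.elim (fun e b => M b (L e)) (fun e c => N (L e) c) : E ⊕ E → J → ℝ)
        = fun t => ∑ b, (Sum.elim (fun e b => M b (L e)) (fun e c => N (L e) c) :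
          E ⊕ E → J → ℝ) t b • (Pi.single b 1 : J → ℝ) := by
      funext t b
      rw [Finset.sum_apply, Finset.sum_eq_single b]
      · rw [Pi.smul_apply, Pi.single_eq_same, smul_eq_mul, mul_one]
      · intro a _ ha
        rw [Pi.smul_apply, Pi.single_eq_of_ne (Ne.symm ha), smul_zero]
      · intro hh; exact absurd (Finset.mem_univ _) hh
    rw [e1, W.map_sum]
    refine Finset.sum_congr rfl fun r _ => ?_
    rw [W.map_smul_univ, Fintype.prod_sum_type, ← Finset.prod_mul_distrib]
    rfl
  have h2 : ∀ r : E ⊕ E → J,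
      ∑ L : E → J, ∏ e, M (r (Sum.inl e)) (L e) * N (L e) (r (Sum.inr e))
      = if ∀ e, r (Sum.inl e) = r (Sum.inr e) then 1 else 0 := by
    intro r
    have e1 := Finset.prod_univ_sum (fun _ : E => (Finset.univ : Finset J))
      (fun e a => M (r (Sum.inl e)) a * N a (r (Sum.inr e)))
    rw [Fintype.piFinset_univ] at e1
    rw [← e1]
    have e2 : ∀ e, ∑ a, M (r (Sum.inl e)) a * N a (r (Sum.inr e))
        = if r (Sum.inl e) = r (Sum.inr e) then 1 else 0 := by
      intro e
      rw [← Matrix.mul_apply, h, Matrix.one_apply]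
    simp only [e2]
    by_cases hc : ∀ e, r (Sum.inl e) = r (Sum.inr e)
    · rw [if_pos hc, Finset.prod_eq_one fun e _ => if_pos (hc e)]
    · rw [if_neg hc]
      push Not at hc
      obtain ⟨e, he⟩ := hc
      exact Finset.prod_eq_zero (Finset.mem_univ e) (if_neg he)
  simp only [h1]
  rw [Finset.sum_comm]
  have h3 : ∀ r : E ⊕ E → J, ∑ L : E → J,
      (∏ e, M (r (Sum.inl e)) (L e) * N (L e) (r (Sum.inr e))) • W (fun t => Pi.single (r t) 1)
      = if ∀ e, r (Sum.inl e) = r (Sum.inr e) then W (fun t => Pi.single (r t) 1) else 0 := by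
    intro r
    rw [← Finset.sum_smul, h2]
    split_ifs
    · rw [one_smul]
    · rw [zero_smul]
  simp only [h3]
  symm
  refine Finset.sum_of_injOn (fun c : E → J => Sum.elim c c) ?_ ?_ ?_ ?_
  · intro c _ c' _ hcc
    funext e
    exact congrFun hcc (Sum.inl e)
  · intro c _
    exact Finset.mem_coe.2 (Finset.mem_univ _)
  · intro r _ hr
    rw [if_neg]
    intro hc
    refine hr ⟨fun e => r (Sum.inl e), Finset.mem_coe.2 (Finset.mem_univ _), ?_⟩
    funext t
    rcases t with e | e
    · rfl
    · exact hc e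
  · intro c _
    have hc : ∀ e, (Sum.elim c c : E ⊕ E → J) (Sum.inl e) = (Sum.elim c c : E ⊕ E → J) (Sum.inr e) :=
      fun e => rfl
    rw [if_pos hc]
    congr 1
    funext t
    rcases t with e | e <;> rfl

theorem eval_lin (D : Diagram n) (d' : J → R →ₗ[ℝ] R) (P' : J → J → R) (N M : Matrix J J ℝ)
    (h : M * N = 1) (i j : J) :
    D.eval (fun a f => ∑ b, M b a • d' b f) (fun a b => ∑ c, ∑ e, (N a c * N b e) • P' c e) i j
      = ∑ k, ∑ l, (N i k * N j l) • D.eval (fun b f => d' b f) P' k l := by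
  classical
  have hNM : N * M = 1 := mul_eq_one_comm.1 h
  choose ed hed hedu using D.sink
  have hedu' : ∀ e c, D.tgt e = Sum.inr c → e = ed c := fun e c he => hedu c e he
  -- the two kinds of arguments
  have hL : ∀ L : Fin n × Fin 2 → J,
      (if ∀ e, (D.tgt e = Sum.inr 0 → L e = i) ∧ (D.tgt e = Sum.inr 1 → L e = j) then
        ∏ v : Fin n, D.der (fun a f => ∑ b, M b a • d' b f) L v
          (∑ c, ∑ e, (N (L (v, 0)) c * N (L (v, 1)) e) • P' c e) else 0)
      = lin_multi D d' P' (lin_nu N i j)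
          (Sum.elim (fun e b => M b (L e)) (fun e c => N (L e) c)) := by
    intro L
    rw [lin_multi_apply]
    have h1 : ∀ v, lin_F D d' P' (Sum.elim (fun e b => M b (L e)) (fun e c => N (L e) c)) v
        = D.der (fun a f => ∑ b, M b a • d' b f) L v
          (∑ c, ∑ e, (N (L (v, 0)) c * N (L (v, 1)) e) • P' c e) := by
      intro v
      unfold lin_F Diagram.der
      refine lin_foldr_congr _ _ _ _ fun e _ g => ?_
      rw [lin_dx_apply]
      rfl
    have h2 : ∀ e, lin_h D (lin_nu N i j)
        (Sum.elim (fun e b => M b (L e)) (fun e c => N (L e) c)) e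
        = if (D.tgt e = Sum.inr 0 → L e = i) ∧ (D.tgt e = Sum.inr 1 → L e = j) then 1 else 0 := by
      intro e
      unfold lin_h
      rcases he : D.tgt e with v | c
      · simp
      · have h3 : ∑ b, lin_nu N i j c b * (Sum.elim (fun e b => M b (L e))
            (fun e c => N (L e) c) : (Fin n × Fin 2) ⊕ (Fin n × Fin 2) → J → ℝ) (Sum.inl e) b
            = (N * M) (if c = 0 then i else j) (L e) := by
          rw [Matrix.mul_apply]
          rfl
        simp only
        rw [h3, hNM, Matrix.one_apply]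
        fin_cases c
        · simp [eq_comm]
        · simp [eq_comm]
    simp only [h1, h2]
    by_cases hc : ∀ e, (D.tgt e = Sum.inr 0 → L e = i) ∧ (D.tgt e = Sum.inr 1 → L e = j)
    · rw [if_pos hc, Finset.prod_eq_one (fun e _ => if_pos (hc e)), one_smul]
    · rw [if_neg hc]
      push Not at hc
      obtain ⟨e, he⟩ := hc
      rw [Finset.prod_eq_zero (Finset.mem_univ e), zero_smul]
      rw [if_neg]
      rintro ⟨h4, h5⟩
      exact he h4 |>.2 (h5 (he h4).1) 
  have hmain : ∑ L : Fin n × Fin 2 → J, lin_multi D d' P' (lin_nu N i j)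
          (Sum.elim (fun e b => M b (L e)) (fun e c => N (L e) c))
      = ∑ c : Fin n × Fin 2 → J, lin_multi D d' P' (lin_nu N i j)
          (Sum.elim (fun e => Pi.single (c e) 1) (fun e => Pi.single (c e) 1)) :=
    lin_contract (lin_multi D d' P' (lin_nu N i j)) M N h
  have hR : ∀ c : Fin n × Fin 2 → J, lin_multi D d' P' (lin_nu N i j)
          (Sum.elim (fun e => Pi.single (c e) 1) (fun e => Pi.single (c e) 1))
      = (N i (c (ed 0)) * N j (c (ed 1))) •
        ∏ v : Fin n, D.der (fun b f => d' b f) c v (P' (c (v, 0)) (c (v, 1))) := by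
    intro c
    rw [lin_multi_apply]
    have h1 : ∀ v, lin_F D d' P' (Sum.elim (fun e => Pi.single (c e) 1)
        (fun e => Pi.single (c e) 1)) v
        = D.der (fun b f => d' b f) c v (P' (c (v, 0)) (c (v, 1))) := by
      intro v
      unfold lin_F Diagram.der
      rw [show lin_P P' ((Sum.elim (fun e => Pi.single (c e) 1) (fun e => Pi.single (c e) 1) :
          (Fin n × Fin 2) ⊕ (Fin n × Fin 2) → J → ℝ) (Sum.inr (v, 0)))
          ((Sum.elim (fun e => Pi.single (c e) 1) (fun e => Pi.single (c e) 1) :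
          (Fin n × Fin 2) ⊕ (Fin n × Fin 2) → J → ℝ) (Sum.inr (v, 1)))
          = P' (c (v, 0)) (c (v, 1)) from lin_P_single P' _ _]
      refine lin_foldr_congr _ _ _ _ fun e _ g => ?_
      exact lin_dx_single d' _ g
    have h2 : ∏ e, lin_h D (lin_nu N i j) (Sum.elim (fun e => Pi.single (c e) 1)
        (fun e => Pi.single (c e) 1)) e = N i (c (ed 0)) * N j (c (ed 1)) := by
      have hs : ∀ (q : Fin 2) (x : J), ∑ b, lin_nu N i j q b * (Pi.single x 1 : J → ℝ) b
          = N (if q = 0 then i else j) x := by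
        intro q x
        rw [Finset.sum_eq_single x]
        · rw [Pi.single_eq_same, mul_one]
          rfl
        · intro b _ hb
          rw [Pi.single_eq_of_ne hb, mul_zero]
        · intro hh; exact absurd (Finset.mem_univ x) hh
      have hv : ∀ q : Fin 2, lin_h D (lin_nu N i j) (Sum.elim (fun e => Pi.single (c e) 1)
          (fun e => Pi.single (c e) 1)) (ed q) = N (if q = 0 then i else j) (c (ed q)) := by
        intro q
        unfold lin_h
        rw [hed q]
        exact hs q _
      rw [Finset.prod_eq_mul (ed 0) (ed 1)]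
      · rw [hv 0, hv 1]
        simp
      · intro h01
        have h3 := hed 0
        rw [h01, hed 1] at h3
        simp at h3
      · intro e _ he
        unfold lin_h
        rcases hte : D.tgt e with v | q
        · rfl
        · exfalso
          have h3 := hedu' e q hte
          fin_cases q
          · exact he.1 h3
          · exact he.2 h3
      · intro hh; exact absurd (Finset.mem_univ _) hh
      · intro hh; exact absurd (Finset.mem_univ _) hh
    simp only [h1]
    rw [h2]
  conv_lhs => unfold Diagram.eval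
  rw [Finset.sum_congr rfl fun L _ => hL L, hmain, Finset.sum_congr rfl fun c _ => hR c]
  unfold Diagram.eval
  simp only [Finset.smul_sum]
  rw [Finset.sum_congr rfl fun k _ => Finset.sum_comm, Finset.sum_comm]
  refine Finset.sum_congr rfl fun c _ => ?_
  have hcond : ∀ k l, (∀ e, (D.tgt e = Sum.inr 0 → c e = k) ∧ (D.tgt e = Sum.inr 1 → c e = l))
      ↔ c (ed 0) = k ∧ c (ed 1) = l := by
    intro k l
    constructor
    · intro hh
      exact ⟨(hh _).1 (hed 0), (hh _).2 (hed 1)⟩
    · rintro ⟨h1, h2⟩ e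
      refine ⟨fun he => ?_, fun he => ?_⟩
      · rw [hedu' e 0 he, h1]
      · rw [hedu' e 1 he, h2]
  rw [Finset.sum_eq_single (c (ed 0))]
  · rw [Finset.sum_eq_single (c (ed 1))]
    · rw [if_pos ((hcond _ _).2 ⟨rfl, rfl⟩)]
    · intro l _ hl
      rw [if_neg fun hh => hl ((hcond _ _).1 hh).2.symm, smul_zero]
    · intro hh; exact absurd (Finset.mem_univ _) hh
  · intro k _ hk
    refine Finset.sum_eq_zero fun l _ => ?_
    rw [if_neg fun hh => hk ((hcond _ _).1 hh).1.symm, smul_zero]
  · intro hh; exact absurd (Finset.mem_univ _) hh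

theorem evalHom_lin (F : List (ℝ × Diagram n)) (d' : J → R →ₗ[ℝ] R) (P' : J → J → R)
    (N M : Matrix J J ℝ) (h : M * N = 1) (i j : J) :
    evalHom F (fun a f => ∑ b, M b a • d' b f) (fun a b => ∑ c, ∑ e, (N a c * N b e) • P' c e) i j
      = ∑ k, ∑ l, (N i k * N j l) • evalHom F (fun b f => d' b f) P' k l := by
  unfold evalHom
  have h1 : ∀ (c : ℝ × Diagram n), c.1 • (c.2.eval (fun a f => ∑ b, M b a • d' b f)
      (fun a b => ∑ c, ∑ e, (N a c * N b e) • P' c e) i j
      - c.2.eval (fun a f => ∑ b, M b a • d' b f)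
        (fun a b => ∑ c, ∑ e, (N a c * N b e) • P' c e) j i)
      = ∑ k, ∑ l, (N i k * N j l) • (c.1 • (c.2.eval (fun b f => d' b f) P' k l
        - c.2.eval (fun b f => d' b f) P' l k)) := by
    intro c
    rw [eval_lin c.2 d' P' N M h i j, eval_lin c.2 d' P' N M h j i,
      Finset.sum_comm (f := fun k l => (N j k * N i l) • c.2.eval (fun b f => d' b f) P' k l),
      ← Finset.sum_sub_distrib, Finset.smul_sum]
    refine Finset.sum_congr rfl fun k _ => ?_
    rw [← Finset.sum_sub_distrib, Finset.smul_sum]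
    refine Finset.sum_congr rfl fun l _ => ?_
    rw [mul_comm (N j l) (N i k), ← smul_sub, smul_comm]
  simp only [h1]
  induction F with
  | nil => simp
  | cons c F ih =>
    rw [List.map_cons, List.sum_cons, ih, ← Finset.sum_add_distrib]
    refine Finset.sum_congr rfl fun k _ => ?_
    rw [← Finset.sum_add_distrib]
    refine Finset.sum_congr rfl fun l _ => ?_
    rw [List.map_cons, List.sum_cons, smul_add]

end E214
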