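import Pool.Agent.Work.MP_e214ac_gt.Alg

/-!
# G/Rel: diagrams are natural (proved, fixed file)
-/

set_option autoImplicit false

namespace E214

variable {n : ℕ} {J : Type} [Fintype J] [DecidableEq J] {R R' : Type} [CommRing R] [CommRing R']

theorem der_rel (rel : R → R' → Prop) (d : J → R → R) (d' : J → R' → R')
    (hd : ∀ a f f', rel f f' → rel (d a f) (d' a f')) (D : Diagram n) (I : Fin n × Fin 2 → J)
    (v : Fin n) (f : R) (f' : R') (h : rel f f') : rel (D.der d I v f) (D.der d' I v f') := by
  unfold Diagram.der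
  induction ((edges n).filter fun e => D.tgt e = Sum.inl v) with
  | nil => exact h
  | cons e l ih => exact hd _ _ _ ih

theorem sum_rel {α : Type} (rel : R → R' → Prop) (h0 : rel 0 0)
    (hadd : ∀ f f' g g', rel f f' → rel g g' → rel (f + g) (f' + g')) (t : Finset α)
    (F : α → R) (F' : α → R') (h : ∀ a ∈ t, rel (F a) (F' a)) :
    rel (∑ a ∈ t, F a) (∑ a ∈ t, F' a) := by
  classical
  induction t using Finset.induction_on with
  | empty => simpa using h0
  | insert a t ha ih =>
    rw [Finset.sum_insert ha, Finset.sum_insert ha]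
    exact hadd _ _ _ _ (h a (Finset.mem_insert_self a t))
      (ih fun b hb => h b (Finset.mem_insert_of_mem hb))

theorem prod_rel {α : Type} (rel : R → R' → Prop) (h1 : rel 1 1)
    (hmul : ∀ f f' g g', rel f f' → rel g g' → rel (f * g) (f' * g')) (t : Finset α)
    (F : α → R) (F' : α → R') (h : ∀ a ∈ t, rel (F a) (F' a)) :
    rel (∏ a ∈ t, F a) (∏ a ∈ t, F' a) := by
  classical
  induction t using Finset.induction_on with
  | empty => simpa using h1
  | insert a t ha ih =>
    rw [Finset.prod_insert ha, Finset.prod_insert ha]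
    exact hmul _ _ _ _ (h a (Finset.mem_insert_self a t))
      (ih fun b hb => h b (Finset.mem_insert_of_mem hb))

/-- Diagrams are natural for relations that are compatible with the ring operations and the
derivatives. -/
theorem eval_rel (rel : R → R' → Prop) (h0 : rel 0 0) (h1 : rel 1 1)
    (hadd : ∀ f f' g g', rel f f' → rel g g' → rel (f + g) (f' + g'))
    (hmul : ∀ f f' g g', rel f f' → rel g g' → rel (f * g) (f' * g'))
    (d : J → R → R) (d' : J → R' → R')
    (hd : ∀ a f f', rel f f' → rel (d a f) (d' a f')) (P : J → J → R) (P' : J → J → R')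
    (hP : ∀ a b, rel (P a b) (P' a b)) (D : Diagram n) (i j : J) :
    rel (D.eval d P i j) (D.eval d' P' i j) := by
  unfold Diagram.eval
  refine sum_rel rel h0 hadd _ _ _ fun I _ => ?_
  split_ifs
  · exact prod_rel rel h1 hmul _ _ _ fun v _ => der_rel rel d d' hd D I v _ _ (hP _ _)
  · exact h0

theorem listSum_rel {α : Type} (rel : R → R' → Prop) (h0 : rel 0 0)
    (hadd : ∀ f f' g g', rel f f' → rel g g' → rel (f + g) (f' + g')) (l : List α)
    (F : α → R) (F' : α → R') (h : ∀ a ∈ l, rel (F a) (F' a)) :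
    rel ((l.map F).sum) ((l.map F').sum) := by
  induction l with
  | nil => simpa using h0
  | cons a l ih =>
    rw [List.map_cons, List.map_cons, List.sum_cons, List.sum_cons]
    exact hadd _ _ _ _ (h a (by simp)) (ih fun b hb => h b (by simp [hb]))

variable [Algebra ℝ R] [Algebra ℝ R']

theorem evalHom_rel (rel : R → R' → Prop) (h0 : rel 0 0) (h1 : rel 1 1)
    (hadd : ∀ f f' g g', rel f f' → rel g g' → rel (f + g) (f' + g'))
    (hmul : ∀ f f' g g', rel f f' → rel g g' → rel (f * g) (f' * g'))
    (hsmul : ∀ (c : ℝ) f f', rel f f' → rel (c • f) (c • f'))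
    (d : J → R → R) (d' : J → R' → R')
    (hd : ∀ a f f', rel f f' → rel (d a f) (d' a f')) (P : J → J → R) (P' : J → J → R')
    (hP : ∀ a b, rel (P a b) (P' a b)) (F : List (ℝ × Diagram n)) (i j : J) :
    rel (evalHom F d P i j) (evalHom F d' P' i j) := by
  unfold evalHom
  refine listSum_rel rel h0 hadd _ _ _ fun c _ => hsmul _ _ _ ?_
  have hneg : ∀ f f', rel f f' → rel (-f) (-f') := by
    intro f f' h
    have := hsmul (-1) f f' h
    simpa using this
  rw [sub_eq_add_neg, sub_eq_add_neg]
  exact hadd _ _ _ _ (eval_rel rel h0 h1 hadd hmul d d' hd P P' hP _ _ _)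
    (hneg _ _ (eval_rel rel h0 h1 hadd hmul d d' hd P P' hP _ _ _))

/-- Naturality under algebra homomorphisms. -/
theorem evalHom_map (ρ : R →ₐ[ℝ] R') (d : J → R → R) (d' : J → R' → R')
    (hd : ∀ a f, ρ (d a f) = d' a (ρ f)) (P : J → J → R)
    (F : List (ℝ × Diagram n)) (i j : J) :
    ρ (evalHom F d P i j) = evalHom F d' (fun a b => ρ (P a b)) i j := by
  refine evalHom_rel (fun f f' => ρ f = f') (map_zero ρ) (map_one ρ) ?_ ?_ ?_ d d' ?_ P _
    (fun a b => rfl) F i j
  · rintro f _ g _ rfl rfl; exact map_add ρ f g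
  · rintro f _ g _ rfl rfl; exact map_mul ρ f g
  · rintro c f _ rfl; exact map_smul ρ c f
  · rintro a f _ rfl; exact hd a f

theorem evalHom_swap (F : List (ℝ × Diagram n)) (d : J → R → R) (P : J → J → R) (i j : J) :
    evalHom F d P i j = - evalHom F d P j i := by
  unfold evalHom
  induction F with
  | nil => simp
  | cons c l ih =>
    rw [List.map_cons, List.map_cons, List.sum_cons, List.sum_cons, ih, neg_add, ← smul_neg,
      neg_sub]

end E214
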