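import Pool.Agent.Work.MP_e214ac_gt.G.Rel

/-!
# G/Scale: homogeneity of diagrams (proved, fixed file)
-/

set_option autoImplicit false

namespace E214

variable {n : ℕ} {J : Type} [Fintype J] [DecidableEq J] {R : Type} [CommRing R]

theorem der_scale (d : J → R → R) (c : R) (hd : ∀ a f, d a (c * f) = c * d a f) (D : Diagram n)
    (I : Fin n × Fin 2 → J) (v : Fin n) (f : R) : D.der d I v (c * f) = c * D.der d I v f := by
  unfold Diagram.der
  induction ((edges n).filter fun e => D.tgt e = Sum.inl v) with
  | nil => rfl
  | cons e l ih => rw [List.foldr_cons, List.foldr_cons, ih, hd]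

theorem eval_scale (d : J → R → R) (c : R) (hd : ∀ a f, d a (c * f) = c * d a f) (P : J → J → R)
    (D : Diagram n) (i j : J) :
    D.eval d (fun a b => c * P a b) i j = c ^ n * D.eval d P i j := by
  unfold Diagram.eval
  rw [Finset.mul_sum]
  refine Finset.sum_congr rfl fun I _ => ?_
  split_ifs
  · simp only [der_scale d c hd]
    rw [Finset.prod_mul_distrib, Finset.prod_const, Finset.card_univ, Fintype.card_fin]
  · simp

theorem evalHom_scale [Algebra ℝ R] (F : List (ℝ × Diagram n)) (d : J → R → R) (c : R)
    (hd : ∀ a f, d a (c * f) = c * d a f) (P : J → J → R) (i j : J) :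
    evalHom F d (fun a b => c * P a b) i j = c ^ n * evalHom F d P i j := by
  unfold evalHom
  induction F with
  | nil => simp
  | cons x l ih =>
    rw [List.map_cons, List.map_cons, List.sum_cons, List.sum_cons, ih,
      eval_scale d c hd, eval_scale d c hd, ← mul_sub, mul_add, mul_smul_comm]

end E214
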