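import Pool.Agent.Work.MP_e214ac_gt.G.Rel

/-!
# Module G/Stab: additional directions in which nothing varies do not matter

`k : K → J` is injective; the set `Z` contains all `P^{ab}` (`a, b ∈ J`), is stable under all `∂_a`,
and `∂_c` vanishes on `Z` for `c` outside the image of `k`.  Then for `i, j ∈ K` the value of a
diagram with indices in `J` is the value with indices in `K`.

Proof (`eval_stab`).  Split the sum over the labellings `I : Fin n × Fin 2 → J` into those with all
values in the image of `k` and the others.  If some `I e ∉ range k` (and the condition on the free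
edges holds) then `e` is not free (the free edges have the labels `k i`, `k j`), so
`D.tgt e = inl v` and the factor at `v` is an iterated derivative, along a list that contains `e`,
of an element of `Z`: the derivative along `I e` kills the (iterated derivative, again in `Z`)
before it, and `∂_a 0 = 0` for the later ones.  So the factor is `0`.  The labellings with values
in the image of `k` are the `k ∘ I'` for a unique `I' : Fin n × Fin 2 → K`
(`Finset.sum_bij`/`Finset.sum_nbij'`, or `Finset.sum_subset` and
`Function.Injective` of `(k ∘ ·)`), and the terms agree; the conditions on the free edges are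
equivalent because `k` is injective.
-/

set_option autoImplicit false

namespace E214

variable {n : ℕ} {J K : Type} [Fintype J] [DecidableEq J] [Fintype K] [DecidableEq K]
  {R : Type} [CommRing R]

theorem eval_stab (k : K → J) (hk : Function.Injective k) (D : Diagram n) (d : J → R → R)
    (hd0 : ∀ a, d a 0 = 0) (P : J → J → R) (Z : Set R) (hP : ∀ a b, P a b ∈ Z)
    (hZ : ∀ a, ∀ f ∈ Z, d a f ∈ Z) (hkill : ∀ c, c ∉ Set.range k → ∀ f ∈ Z, d c f = 0) (i j : K) :
    D.eval d P (k i) (k j) = D.eval (fun a => d (k a)) (fun a b => P (k a) (k b)) i j := by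
  classical
  unfold Diagram.eval
  -- the summand
  have hder : ∀ (I : Fin n × Fin 2 → J) (l : List (Fin n × Fin 2)) (f : R), f ∈ Z →
      l.foldr (fun e g => d (I e) g) f ∈ Z := by
    intro I l f hf
    induction l with
    | nil => exact hf
    | cons e l ih => exact hZ _ _ ih
  have hder0 : ∀ (I : Fin n × Fin 2 → J) (l : List (Fin n × Fin 2)) (f : R), f ∈ Z →
      (∃ e ∈ l, I e ∉ Set.range k) → l.foldr (fun e g => d (I e) g) f = 0 := by
    intro I l f hf
    induction l with
    | nil => rintro ⟨e, he, _⟩; simp at he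
    | cons e l ih =>
      rintro ⟨e', he', hk'⟩
      rw [List.foldr_cons]
      rcases List.mem_cons.1 he' with rfl | h
      · exact hkill _ hk' _ (hder I l f hf)
      · rw [ih ⟨e', h, hk'⟩, hd0]
  have hzero : ∀ I : Fin n × Fin 2 → J, I ∉ Set.range (fun I' : Fin n × Fin 2 → K => k ∘ I') →
      (if ∀ e, (D.tgt e = Sum.inr 0 → I e = k i) ∧ (D.tgt e = Sum.inr 1 → I e = k j) then
        ∏ v : Fin n, D.der d I v (P (I (v, 0)) (I (v, 1))) else 0) = 0 := by
    intro I hI
    split_ifs with hc
    · have hex : ∃ e, I e ∉ Set.range k := by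
        by_contra hcon
        push Not at hcon
        choose I' hI' using hcon
        exact hI ⟨I', funext hI'⟩
      obtain ⟨e, he⟩ := hex
      rcases h : D.tgt e with v | c
      · refine Finset.prod_eq_zero (Finset.mem_univ v) ?_
        unfold Diagram.der
        refine hder0 I _ _ (hP _ _) ⟨e, ?_, he⟩
        rw [List.mem_filter]
        refine ⟨?_, by simpa using h⟩
        unfold edges
        exact List.mem_product.2 ⟨List.mem_finRange _, List.mem_finRange _⟩
      · exfalso
        fin_cases c
        · exact he ⟨i, ((hc e).1 h).symm⟩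
        · exact he ⟨j, ((hc e).2 h).symm⟩
    · rfl
  symm
  refine Finset.sum_of_injOn (fun I' => k ∘ I') ?_ (by intro _ _; exact Finset.mem_coe.2 (Finset.mem_univ _)) ?_ ?_
  · intro I' _ I'' _ h
    funext e
    exact hk (congrFun h e)
  · intro I _ hI
    refine hzero I ?_
    rintro ⟨I', rfl⟩
    exact hI ⟨I', Finset.mem_coe.2 (Finset.mem_univ _), rfl⟩
  · intro I' _
    have hiff : (∀ e, (D.tgt e = Sum.inr 0 → I' e = i) ∧ (D.tgt e = Sum.inr 1 → I' e = j))
        ↔ ∀ e, (D.tgt e = Sum.inr 0 → (k ∘ I') e = k i) ∧
          (D.tgt e = Sum.inr 1 → (k ∘ I') e = k j) := by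
      simp only [Function.comp_apply, hk.eq_iff]
    by_cases h : ∀ e, (D.tgt e = Sum.inr 0 → I' e = i) ∧ (D.tgt e = Sum.inr 1 → I' e = j)
    · rw [if_pos h, if_pos (hiff.1 h)]
      rfl
    · rw [if_neg h, if_neg fun h' => h (hiff.2 h')]

theorem evalHom_stab [Algebra ℝ R] (k : K → J) (hk : Function.Injective k)
    (F : List (ℝ × Diagram n)) (d : J → R → R)
    (hd0 : ∀ a, d a 0 = 0) (P : J → J → R) (Z : Set R) (hP : ∀ a b, P a b ∈ Z)
    (hZ : ∀ a, ∀ f ∈ Z, d a f ∈ Z) (hkill : ∀ c, c ∉ Set.range k → ∀ f ∈ Z, d c f = 0) (i j : K) :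
    evalHom F d P (k i) (k j) = evalHom F (fun a => d (k a)) (fun a b => P (k a) (k b)) i j := by
  unfold evalHom
  congr 1
  refine List.map_congr_left fun c _ => ?_
  rw [eval_stab k hk c.2 d hd0 P Z hP hZ hkill i j, eval_stab k hk c.2 d hd0 P Z hP hZ hkill j i]

end E214
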