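import Pool.Agent.Work.MP_e214ac_gt.G.Rel

/-!
# Module G/Van: diagrams with at least three vertices vanish on bivectors that are constant to
first order

Let `P` be skew and let `I` be an ideal with `I · I = 0` that is stable under the `∂_a` and contains
all `∂_a P^{bc}` (e.g. `I = 0`, or `I = ε B[ε]` in the dual numbers).  Then every diagram with
`n ≥ 3` vertices vanishes.

Proof (`eval_van`).  The two sinks are hit by one edge each (`D.sink`), so, as `n ≥ 3`, there is a
vertex `u` none of whose two edges ends in a sink (otherwise we would have an injection of `Fin n`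
into `Fin 2`): `D.tgt (u, 0) = inl v₀`, `D.tgt (u, 1) = inl v₁`.
* `v₀ ≠ v₁`: in every term of the sum the factors at `v₀` and at `v₁` are iterated derivatives of
  order at least one of components of `P`, so both lie in `I` and their product is `0`.
* `v₀ = v₁ = v`: let `σ` be the involution of the edges that swaps `(u, 0)` and `(u, 1)`.
  Substitute `I ↦ I ∘ σ` in the sum over the labellings (`Equiv.sum_comp`, `Equiv.arrowCongr` /
  `Function.Involutive.toPerm`).  The condition on the free edges is unchanged (the two edges are
  internal).  The component at `u` becomes `P^{I(u,1) I(u,0)} = - P^{I(u,0) I(u,1)}`.  The iterated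
  derivatives do not change: the incoming edges of `v` contain both `(u, 0)` and `(u, 1)`, those of
  other vertices contain neither, and the `∂_a` commute, so the iterated derivative along the list
  of labels only depends on the multiset of labels (`List.Perm`, `List.foldr` with commuting
  operations).  Hence the sum is equal to its negative, and it is `0` because `R` is an
  `ℝ`-algebra.
`evalHom_van`: sum over the list.
-/

set_option autoImplicit false

namespace E214

variable {n : ℕ} {J : Type} [Fintype J] [DecidableEq J] {R : Type} [CommRing R] [Algebra ℝ R]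

theorem eval_van (hn : 3 ≤ n) (D : Diagram n) (d : J → R →ₗ[ℝ] R)
    (hdd : ∀ a b f, d a (d b f) = d b (d a f)) (P : J → J → R) (hanti : ∀ a b, P a b = - P b a)
    (I : Ideal R) (hI : ∀ u ∈ I, ∀ v ∈ I, u * v = 0) (hdI : ∀ a, ∀ u ∈ I, d a u ∈ I)
    (hdP : ∀ a b c, d a (P b c) ∈ I) (i j : J) : D.eval (fun a f => d a f) P i j = 0 := by
  classical
  have hmemI : ∀ (L : Fin n × Fin 2 → J) (l : List (Fin n × Fin 2)) (b c : J), l ≠ [] →
      l.foldr (fun e g => d (L e) g) (P b c) ∈ I := by
    intro L l b c
    induction l with
    | nil => intro h; exact absurd rfl h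
    | cons e l ih =>
      intro _
      rw [List.foldr_cons]
      by_cases hl : l = []
      · subst hl
        exact hdP _ _ _
      · exact hdI _ _ (ih hl)
  choose ed hed hedu using D.sink
  obtain ⟨u, hu⟩ : ∃ u, u ∉ Set.range fun c => (ed c).1 := by
    by_contra hcon
    push Not at hcon
    have hs : Function.Surjective fun c => (ed c).1 := fun u => hcon u
    have := Fintype.card_le_of_surjective _ hs
    simp only [Fintype.card_fin] at this
    omega
  have hint : ∀ a : Fin 2, ∃ v, D.tgt (u, a) = Sum.inl v := by
    intro a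
    rcases h : D.tgt (u, a) with v | c
    · exact ⟨v, rfl⟩
    · exfalso
      exact hu ⟨c, by
        have := hedu c (u, a) h
        change (ed c).1 = u
        rw [← this]⟩
  obtain ⟨v₀, hv₀⟩ := hint 0
  obtain ⟨v₁, hv₁⟩ := hint 1
  have hedge : ∀ e : Fin n × Fin 2, e ∈ edges n := by
    intro e
    unfold edges
    exact List.mem_product.2 ⟨List.mem_finRange _, List.mem_finRange _⟩
  by_cases hvv : v₀ = v₁
  · -- both edges of `u` end in the same vertex
    subst hvv
    set σ : Equiv.Perm (Fin n × Fin 2) := Equiv.swap (u, 0) (u, 1) with hσ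
    have hσtgt : ∀ e, D.tgt (σ e) = D.tgt e := by
      intro e
      by_cases h0 : e = (u, 0)
      · rw [h0, hσ, Equiv.swap_apply_left, hv₀, hv₁]
      · by_cases h1 : e = (u, 1)
        · rw [h1, hσ, Equiv.swap_apply_right, hv₀, hv₁]
        · rw [hσ, Equiv.swap_apply_of_ne_of_ne h0 h1]
    have hσfree : ∀ e c, D.tgt e = Sum.inr c → σ e = e := by
      intro e c h
      rw [hσ]
      refine Equiv.swap_apply_of_ne_of_ne ?_ ?_
      · rintro rfl
        rw [hv₀] at h
        cases h
      · rintro rfl
        rw [hv₁] at h
        cases h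
    have hder : ∀ (L : Fin n × Fin 2 → J) (w : Fin n) (f : R),
        D.der (fun a f => d a f) (L ∘ σ) w f = D.der (fun a f => d a f) L w f := by
      intro L w f
      unfold Diagram.der
      have hperm : (((edges n).filter fun e => D.tgt e = Sum.inl w).map σ).Perm
          ((edges n).filter fun e => D.tgt e = Sum.inl w) := by
        have hnd : ((edges n).filter fun e => D.tgt e = Sum.inl w).Nodup :=
          ((List.nodup_finRange n).product (List.nodup_finRange 2)).filter _
        refine (List.perm_ext_iff_of_nodup (hnd.map σ.injective) hnd).2 fun e => ?_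
        rw [List.mem_map]
        constructor
        · rintro ⟨e', he', rfl⟩
          rw [List.mem_filter] at he' ⊢
          exact ⟨hedge _, by rw [hσtgt]; exact he'.2⟩
        · intro he
          refine ⟨σ e, ?_, ?_⟩
          · rw [List.mem_filter] at he ⊢
            exact ⟨hedge _, by rw [hσtgt]; exact he.2⟩
          · rw [hσ, Equiv.swap_apply_self]
      haveI : LeftCommutative (fun (e : Fin n × Fin 2) (g : R) => d (L e) g) :=
        ⟨fun a b c => hdd _ _ _⟩
      have h1 := hperm.foldr_eq (f := fun (e : Fin n × Fin 2) (g : R) => d (L e) g) f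
      rw [List.foldr_map] at h1
      exact h1
    have hneg : ∀ (L : Fin n × Fin 2 → J) (w : Fin n) (f : R),
        D.der (fun a f => d a f) L w (-f) = - D.der (fun a f => d a f) L w f := by
      intro L w f
      unfold Diagram.der
      induction ((edges n).filter fun e => D.tgt e = Sum.inl w) with
      | nil => rfl
      | cons e l ih =>
        rw [List.foldr_cons, List.foldr_cons, ih]
        exact map_neg (d (L e)) _
    have hterm : ∀ L : Fin n × Fin 2 → J,
        (if ∀ e, (D.tgt e = Sum.inr 0 → (L ∘ σ) e = i) ∧ (D.tgt e = Sum.inr 1 → (L ∘ σ) e = j) then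
          ∏ v : Fin n, D.der (fun a f => d a f) (L ∘ σ) v (P ((L ∘ σ) (v, 0)) ((L ∘ σ) (v, 1)))
        else 0)
        = - (if ∀ e, (D.tgt e = Sum.inr 0 → L e = i) ∧ (D.tgt e = Sum.inr 1 → L e = j) then
          ∏ v : Fin n, D.der (fun a f => d a f) L v (P (L (v, 0)) (L (v, 1))) else 0) := by
      intro L
      have hiff : (∀ e, (D.tgt e = Sum.inr 0 → (L ∘ σ) e = i) ∧
          (D.tgt e = Sum.inr 1 → (L ∘ σ) e = j))
          ↔ ∀ e, (D.tgt e = Sum.inr 0 → L e = i) ∧ (D.tgt e = Sum.inr 1 → L e = j) := by
        refine forall_congr' fun e => and_congr ?_ ?_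
        · refine imp_congr_right fun h => ?_
          rw [Function.comp_apply, hσfree e _ h]
        · refine imp_congr_right fun h => ?_
          rw [Function.comp_apply, hσfree e _ h]
      by_cases h : ∀ e, (D.tgt e = Sum.inr 0 → L e = i) ∧ (D.tgt e = Sum.inr 1 → L e = j)
      · rw [if_pos h, if_pos (hiff.2 h), ← Finset.mul_prod_erase Finset.univ _ (Finset.mem_univ u),
          ← Finset.mul_prod_erase Finset.univ
            (fun v => D.der (fun a f => d a f) L v (P (L (v, 0)) (L (v, 1))))
            (Finset.mem_univ u), ← neg_mul]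
        congr 1
        · rw [hder, Function.comp_apply, Function.comp_apply, hσ, Equiv.swap_apply_left,
            Equiv.swap_apply_right, hanti, hneg]
        · refine Finset.prod_congr rfl fun w hw => ?_
          have hwu : w ≠ u := Finset.ne_of_mem_erase hw
          rw [hder, Function.comp_apply, Function.comp_apply, hσ,
            Equiv.swap_apply_of_ne_of_ne (fun h => hwu (congrArg Prod.fst h))
              (fun h => hwu (congrArg Prod.fst h)),
            Equiv.swap_apply_of_ne_of_ne (fun h => hwu (congrArg Prod.fst h))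
              (fun h => hwu (congrArg Prod.fst h))]
      · rw [if_neg h, if_neg fun h' => h (hiff.1 h'), neg_zero]
    have hsum : D.eval (fun a f => d a f) P i j = - D.eval (fun a f => d a f) P i j := by
      conv_lhs => unfold Diagram.eval
      unfold Diagram.eval
      rw [← Finset.sum_neg_distrib, ← Equiv.sum_comp (Equiv.arrowCongr σ (Equiv.refl J))]
      refine Finset.sum_congr rfl fun L _ => ?_
      have h1 : (Equiv.arrowCongr σ (Equiv.refl J)) L = L ∘ σ := by
        funext e
        change L (σ.symm e) = L (σ e)
        rw [hσ, Equiv.symm_swap]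
      rw [h1]
      exact hterm L
    have h2 : (2 : ℝ) • D.eval (fun a f => d a f) P i j = 0 := by
      rw [two_smul]
      nth_rewrite 1 [hsum]
      rw [neg_add_cancel]
    have h3 := congrArg (fun b => (2 : ℝ)⁻¹ • b) h2
    simp only [smul_zero, smul_smul] at h3
    rwa [inv_mul_cancel₀ two_ne_zero, one_smul] at h3
  · unfold Diagram.eval
    refine Finset.sum_eq_zero fun L _ => ?_
    split_ifs with hc
    · have hv1m : v₁ ∈ Finset.univ.erase v₀ :=
        Finset.mem_erase.2 ⟨fun h => hvv h.symm, Finset.mem_univ _⟩
      rw [← Finset.mul_prod_erase Finset.univ _ (Finset.mem_univ v₀),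
        ← Finset.mul_prod_erase (Finset.univ.erase v₀) _ hv1m, ← mul_assoc]
      have hne : ∀ (a : Fin 2) (v : Fin n), D.tgt (u, a) = Sum.inl v →
          ((edges n).filter fun e => D.tgt e = Sum.inl v) ≠ [] := by
        intro a v h hnil
        have : (u, a) ∈ ((edges n).filter fun e => D.tgt e = Sum.inl v) := by
          rw [List.mem_filter]
          exact ⟨hedge _, by simpa using h⟩
        rw [hnil] at this
        simp at this
      have h0 : D.der (fun a f => d a f) L v₀ (P (L (v₀, 0)) (L (v₀, 1))) ∈ I :=
        hmemI L _ _ _ (hne 0 v₀ hv₀)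
      have h1 : D.der (fun a f => d a f) L v₁ (P (L (v₁, 0)) (L (v₁, 1))) ∈ I :=
        hmemI L _ _ _ (hne 1 v₁ hv₁)
      rw [hI _ h0 _ h1, zero_mul]
    · rfl

theorem evalHom_van (hn : 3 ≤ n) (F : List (ℝ × Diagram n)) (d : J → R →ₗ[ℝ] R)
    (hdd : ∀ a b f, d a (d b f) = d b (d a f)) (P : J → J → R) (hanti : ∀ a b, P a b = - P b a)
    (I : Ideal R) (hI : ∀ u ∈ I, ∀ v ∈ I, u * v = 0) (hdI : ∀ a, ∀ u ∈ I, d a u ∈ I)
    (hdP : ∀ a b c, d a (P b c) ∈ I) (i j : J) : evalHom F (fun a f => d a f) P i j = 0 := by
  unfold evalHom
  refine List.sum_eq_zero fun x hx => ?_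
  obtain ⟨c, _, rfl⟩ := List.mem_map.1 hx
  rw [eval_van hn c.2 d hdd P hanti I hI hdI hdP i j,
    eval_van hn c.2 d hdd P hanti I hI hdI hdP j i, sub_zero, smul_zero]

end E214
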